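import Pool.Agent.H3.Alt.C3.Good
import Pool.Agent.H8.Alt.C3.Glue

/-!
# The engine statement for `ν` in characteristic three and the identity `(ν, y, w) = 0`
-/

namespace Pool.Agent.H3.Alt.C3

open H8Alt H8Alt.Super H8Alt.Super.G H8Alt.C3 Pool.Agent.H3.Alt

theorem chkJac : chkL eJac.1 sJac eJac.2 = true := by decide +kernel
theorem chkR4 : chkL eR4.1 sR4 eR4.2 = true := by decide +kernel
theorem chkFal : chkL eFal.1 sFal eFal.2 = true := by decide +kernel
theorem chkB1 : chkL eB1.1 sB1 eB1.2 = true := by decide +kernel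
theorem chkPhi : chkL ePhi.1 sPhi ePhi.2 = true := by decide +kernel
theorem chkK7 : chkL eK7.1 sK7 eK7.2 = true := by decide +kernel
theorem chkJ : chkL eJ.1 sKj eJ.2 = true := by decide +kernel
theorem chkJA : chkL eJA.1 (adOp 5 sKj) eJA.2 = true := by decide +kernel
theorem chkJD : chkL eJD.1 (deOp 5 6 sKj) eJD.2 = true := by decide +kernel
theorem chkJAA : chkL eJAA.1 (adOp 6 (adOp 5 sKj)) eJAA.2 = true := by decide +kernel
theorem chkJAD : chkL eJAD.1 (deOp 6 7 (adOp 5 sKj)) eJAD.2 = true := by decide +kernel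
theorem chkJAAA : chkL eJAAA.1 (adOp 7 (adOp 6 (adOp 5 sKj))) eJAAA.2 = true := by
  decide +kernel
theorem chkJAAD : chkL eJAAD.1 (deOp 7 8 (adOp 6 (adOp 5 sKj))) eJAAD.2 = true := by
  decide +kernel

theorem chkTgt : chkL 512 nuT sTgt.2 = true := by decide +kernel

theorem mAA : Multi [0, 1, 2, 3, 4, 5, 6] (adOp 6 (adOp 5 sKj)) := by unfold Multi; decide
theorem mAD : Multi [0, 1, 2, 3, 4, 5, 6, 7] (deOp 6 7 (adOp 5 sKj)) := by unfold Multi; decide
theorem mAAA : Multi [0, 1, 2, 3, 4, 5, 6, 7] (adOp 7 (adOp 6 (adOp 5 sKj))) := by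
  unfold Multi; decide
theorem mAAD : Multi [0, 1, 2, 3, 4, 5, 6, 7, 8] (deOp 7 8 (adOp 6 (adOp 5 sKj))) := by
  unfold Multi; decide

section
variable {A : Type*} [NonUnitalNonAssocRing A] [IsAlternative A]

variable (A) in
theorem vJA : OValid A (adOp 5 sKj) := sKj_ctx_valid A [(5, none)]
variable (A) in
theorem vJD : OValid A (deOp 5 6 sKj) := sKj_ctx_valid A [(5, some 6)]
variable (A) in
theorem vJAA : OValid A (adOp 6 (adOp 5 sKj)) := sKj_ctx_valid A [(6, none), (5, none)]
variable (A) in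
theorem vJAD : OValid A (deOp 6 7 (adOp 5 sKj)) := sKj_ctx_valid A [(6, some 7), (5, none)]
variable (A) in
theorem vJAAA : OValid A (adOp 7 (adOp 6 (adOp 5 sKj))) :=
  sKj_ctx_valid A [(7, none), (6, none), (5, none)]
variable (A) in
theorem vJAAD : OValid A (deOp 7 8 (adOp 6 (adOp 5 sKj))) :=
  sKj_ctx_valid A [(7, some 8), (6, none), (5, none)]

/-- all schemas are valid in `A ⊗ Λ` -/
theorem vss (h3 : ∀ x : Fn 6 A, (3 : ℤ) • x = 0) : VSs (semA A 6) schemas := by
  intro e he
  simp only [schemas, List.mem_cons, List.not_mem_nil, or_false] at he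
  rcases he with rfl | rfl | rfl | rfl | rfl | rfl | rfl | rfl | rfl | rfl | rfl | rfl | rfl
  · exact vs_of h3 (sJac_valid A) sJac_multi (by decide) chkJac
  · exact vs_of h3 (sR4_valid A) sR4_multi (by decide) chkR4
  · exact vs_of h3 (sFal_valid A) sFal_multi (by decide) chkFal
  · exact vs_of h3 (sB1_valid A) sB1_multi (by decide) chkB1
  · exact vs_of h3 (sPhi_valid A) sPhi_multi (by decide) chkPhi
  · exact vs_of h3 (sK7_valid A) sK7_multi (by decide) chkK7
  · exact vs_of h3 (sKj_valid A) sKj_multi (by decide) chkJ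
  · exact vs_of h3 (vJA A) sKj_ad_multi (by decide) chkJA
  · exact vs_of h3 (vJD A) sKj_de_multi (by decide) chkJD
  · exact vs_of h3 (vJAA A) mAA (by decide) chkJAA
  · exact vs_of h3 (vJAD A) mAD (by decide) chkJAD
  · exact vs_of h3 (vJAAA A) mAAA (by decide) chkJAAA
  · exact vs_of h3 (vJAAD A) mAAD (by decide) chkJAAD

/-- (E3) the engine statement for `ν` in characteristic three -/
theorem engN (h3 : ∀ x : A, (3 : ℤ) • x = 0) : EngN (semA A 6) := by
  have h : ∀ x : Fn 6 A, (3 : ℤ) • x = 0 := fn_tors 3 h3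
  refine engN_of h N.hDK sTgt chkTgt ?_
  intro gen H
  exact N.fin_good (vss h) H

/-- `(ν, y, w) = 0` in alternative rings with `3 = 0` -/
theorem nu_as (h3 : ∀ x : A, (3 : ℤ) • x = 0) (z a b c d y w : A) :
    as (nu z a b c d) y w = 0 := nu_of_eng h3 (engN h3) z a b c d y w

end

end Pool.Agent.H3.Alt.C3
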