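import Pool.Agent.H3.Alt.C3.S9
import Pool.Agent.H8.Alt.C3.Sound4

/-!
# Soundness of all stages
-/

namespace H8Alt.C3.N

open H8Alt.Super

section
variable {S : Type*} [AddCommGroup S] {M : Sem S} {gen : ℕ → S}

theorem goodT1 : GoodL M (val M DK gen) T1 := goodL_of_all trivial

theorem D0002.good (hL : VSs M schemas) (H : Ctx M DK gen) :
    GoodL M (val M DK gen) D0002.ct :=
  stage_sound H hL goodT1 D0002.hK D0002.hI D0002.hC

theorem D0011.good (hL : VSs M schemas) (H : Ctx M DK gen) :
    GoodL M (val M DK gen) D0011.ct :=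
  stage_sound H hL goodT1 D0011.hK D0011.hI D0011.hC

theorem D0020.good (hL : VSs M schemas) (H : Ctx M DK gen) :
    GoodL M (val M DK gen) D0020.ct :=
  stage_sound H hL goodT1 D0020.hK D0020.hI D0020.hC

theorem D0101.good (hL : VSs M schemas) (H : Ctx M DK gen) :
    GoodL M (val M DK gen) D0101.ct :=
  stage_sound H hL goodT1 D0101.hK D0101.hI D0101.hC

theorem D0110.good (hL : VSs M schemas) (H : Ctx M DK gen) :
    GoodL M (val M DK gen) D0110.ct :=
  stage_sound H hL goodT1 D0110.hK D0110.hI D0110.hC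

theorem D0200.good (hL : VSs M schemas) (H : Ctx M DK gen) :
    GoodL M (val M DK gen) D0200.ct :=
  stage_sound H hL goodT1 D0200.hK D0200.hI D0200.hC

theorem D1001.good (hL : VSs M schemas) (H : Ctx M DK gen) :
    GoodL M (val M DK gen) D1001.ct :=
  stage_sound H hL goodT1 D1001.hK D1001.hI D1001.hC

theorem D1010.good (hL : VSs M schemas) (H : Ctx M DK gen) :
    GoodL M (val M DK gen) D1010.ct :=
  stage_sound H hL goodT1 D1010.hK D1010.hI D1010.hC

theorem D1100.good (hL : VSs M schemas) (H : Ctx M DK gen) :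
    GoodL M (val M DK gen) D1100.ct :=
  stage_sound H hL goodT1 D1100.hK D1100.hI D1100.hC

theorem goodT2 (hL : VSs M schemas) (H : Ctx M DK gen) :
    GoodL M (val M DK gen) T2 := by
  refine checkU_sound ?_ hU2
  intro t ht
  simp only [List.mem_cons, List.not_mem_nil, or_false] at ht
  rcases ht with rfl | rfl | rfl | rfl | rfl | rfl | rfl | rfl | rfl | rfl
  · exact goodT1
  · exact D0002.good hL H
  · exact D0011.good hL H
  · exact D0020.good hL H
  · exact D0101.good hL H
  · exact D0110.good hL H
  · exact D0200.good hL H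
  · exact D1001.good hL H
  · exact D1010.good hL H
  · exact D1100.good hL H

theorem D0012.good (hL : VSs M schemas) (H : Ctx M DK gen) :
    GoodL M (val M DK gen) D0012.ct :=
  stage_sound H hL (goodT2 hL H) D0012.hK D0012.hI D0012.hC

theorem D0021.good (hL : VSs M schemas) (H : Ctx M DK gen) :
    GoodL M (val M DK gen) D0021.ct :=
  stage_sound H hL (goodT2 hL H) D0021.hK D0021.hI D0021.hC

theorem D0102.good (hL : VSs M schemas) (H : Ctx M DK gen) :
    GoodL M (val M DK gen) D0102.ct :=
  stage_sound H hL (goodT2 hL H) D0102.hK D0102.hI D0102.hC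

theorem D0111.good (hL : VSs M schemas) (H : Ctx M DK gen) :
    GoodL M (val M DK gen) D0111.ct :=
  stage_sound H hL (goodT2 hL H) D0111.hK D0111.hI D0111.hC

theorem D0120.good (hL : VSs M schemas) (H : Ctx M DK gen) :
    GoodL M (val M DK gen) D0120.ct :=
  stage_sound H hL (goodT2 hL H) D0120.hK D0120.hI D0120.hC

theorem D0201.good (hL : VSs M schemas) (H : Ctx M DK gen) :
    GoodL M (val M DK gen) D0201.ct :=
  stage_sound H hL (goodT2 hL H) D0201.hK D0201.hI D0201.hC

theorem D0210.good (hL : VSs M schemas) (H : Ctx M DK gen) :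
    GoodL M (val M DK gen) D0210.ct :=
  stage_sound H hL (goodT2 hL H) D0210.hK D0210.hI D0210.hC

theorem D1002.good (hL : VSs M schemas) (H : Ctx M DK gen) :
    GoodL M (val M DK gen) D1002.ct :=
  stage_sound H hL (goodT2 hL H) D1002.hK D1002.hI D1002.hC

theorem D1011.good (hL : VSs M schemas) (H : Ctx M DK gen) :
    GoodL M (val M DK gen) D1011.ct :=
  stage_sound H hL (goodT2 hL H) D1011.hK D1011.hI D1011.hC

theorem D1020.good (hL : VSs M schemas) (H : Ctx M DK gen) :
    GoodL M (val M DK gen) D1020.ct :=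
  stage_sound H hL (goodT2 hL H) D1020.hK D1020.hI D1020.hC

theorem D1101.good (hL : VSs M schemas) (H : Ctx M DK gen) :
    GoodL M (val M DK gen) D1101.ct :=
  stage_sound H hL (goodT2 hL H) D1101.hK D1101.hI D1101.hC

theorem D1110.good (hL : VSs M schemas) (H : Ctx M DK gen) :
    GoodL M (val M DK gen) D1110.ct :=
  stage_sound H hL (goodT2 hL H) D1110.hK D1110.hI D1110.hC

theorem D1200.good (hL : VSs M schemas) (H : Ctx M DK gen) :
    GoodL M (val M DK gen) D1200.ct :=
  stage_sound H hL (goodT2 hL H) D1200.hK D1200.hI D1200.hC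

theorem D2001.good (hL : VSs M schemas) (H : Ctx M DK gen) :
    GoodL M (val M DK gen) D2001.ct :=
  stage_sound H hL (goodT2 hL H) D2001.hK D2001.hI D2001.hC

theorem D2010.good (hL : VSs M schemas) (H : Ctx M DK gen) :
    GoodL M (val M DK gen) D2010.ct :=
  stage_sound H hL (goodT2 hL H) D2010.hK D2010.hI D2010.hC

theorem D2100.good (hL : VSs M schemas) (H : Ctx M DK gen) :
    GoodL M (val M DK gen) D2100.ct :=
  stage_sound H hL (goodT2 hL H) D2100.hK D2100.hI D2100.hC

theorem goodT3 (hL : VSs M schemas) (H : Ctx M DK gen) :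
    GoodL M (val M DK gen) T3 := by
  refine checkU_sound ?_ hU3
  intro t ht
  simp only [List.mem_cons, List.not_mem_nil, or_false] at ht
  rcases ht with rfl | rfl | rfl | rfl | rfl | rfl | rfl | rfl | rfl | rfl | rfl | rfl | rfl | rfl | rfl | rfl | rfl
  · exact goodT2 hL H
  · exact D0012.good hL H
  · exact D0021.good hL H
  · exact D0102.good hL H
  · exact D0111.good hL H
  · exact D0120.good hL H
  · exact D0201.good hL H
  · exact D0210.good hL H
  · exact D1002.good hL H
  · exact D1011.good hL H
  · exact D1020.good hL H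
  · exact D1101.good hL H
  · exact D1110.good hL H
  · exact D1200.good hL H
  · exact D2001.good hL H
  · exact D2010.good hL H
  · exact D2100.good hL H

theorem D0022.good (hL : VSs M schemas) (H : Ctx M DK gen) :
    GoodL M (val M DK gen) D0022.ct :=
  stage_sound H hL (goodT3 hL H) D0022.hK D0022.hI D0022.hC

theorem D0112.good (hL : VSs M schemas) (H : Ctx M DK gen) :
    GoodL M (val M DK gen) D0112.ct :=
  stage_sound H hL (goodT3 hL H) D0112.hK D0112.hI D0112.hC

theorem D0121.good (hL : VSs M schemas) (H : Ctx M DK gen) :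
    GoodL M (val M DK gen) D0121.ct :=
  stage_sound H hL (goodT3 hL H) D0121.hK D0121.hI D0121.hC

theorem D0202.good (hL : VSs M schemas) (H : Ctx M DK gen) :
    GoodL M (val M DK gen) D0202.ct :=
  stage_sound H hL (goodT3 hL H) D0202.hK D0202.hI D0202.hC

theorem D0211.good (hL : VSs M schemas) (H : Ctx M DK gen) :
    GoodL M (val M DK gen) D0211.ct :=
  stage_sound H hL (goodT3 hL H) D0211.hK D0211.hI D0211.hC

theorem D0220.good (hL : VSs M schemas) (H : Ctx M DK gen) :
    GoodL M (val M DK gen) D0220.ct :=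
  stage_sound H hL (goodT3 hL H) D0220.hK D0220.hI D0220.hC

theorem D1012.good (hL : VSs M schemas) (H : Ctx M DK gen) :
    GoodL M (val M DK gen) D1012.ct :=
  stage_sound H hL (goodT3 hL H) D1012.hK D1012.hI D1012.hC

theorem D1021.good (hL : VSs M schemas) (H : Ctx M DK gen) :
    GoodL M (val M DK gen) D1021.ct :=
  stage_sound H hL (goodT3 hL H) D1021.hK D1021.hI D1021.hC

theorem D1102.good (hL : VSs M schemas) (H : Ctx M DK gen) :
    GoodL M (val M DK gen) D1102.ct :=
  stage_sound H hL (goodT3 hL H) D1102.hK D1102.hI D1102.hC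

theorem D1111.good (hL : VSs M schemas) (H : Ctx M DK gen) :
    GoodL M (val M DK gen) D1111.ct :=
  stage_sound H hL (goodT3 hL H) D1111.hK D1111.hI D1111.hC

theorem D1120.good (hL : VSs M schemas) (H : Ctx M DK gen) :
    GoodL M (val M DK gen) D1120.ct :=
  stage_sound H hL (goodT3 hL H) D1120.hK D1120.hI D1120.hC

theorem D1201.good (hL : VSs M schemas) (H : Ctx M DK gen) :
    GoodL M (val M DK gen) D1201.ct :=
  stage_sound H hL (goodT3 hL H) D1201.hK D1201.hI D1201.hC

theorem D1210.good (hL : VSs M schemas) (H : Ctx M DK gen) :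
    GoodL M (val M DK gen) D1210.ct :=
  stage_sound H hL (goodT3 hL H) D1210.hK D1210.hI D1210.hC

theorem D2002.good (hL : VSs M schemas) (H : Ctx M DK gen) :
    GoodL M (val M DK gen) D2002.ct :=
  stage_sound H hL (goodT3 hL H) D2002.hK D2002.hI D2002.hC

theorem D2011.good (hL : VSs M schemas) (H : Ctx M DK gen) :
    GoodL M (val M DK gen) D2011.ct :=
  stage_sound H hL (goodT3 hL H) D2011.hK D2011.hI D2011.hC

theorem D2020.good (hL : VSs M schemas) (H : Ctx M DK gen) :
    GoodL M (val M DK gen) D2020.ct :=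
  stage_sound H hL (goodT3 hL H) D2020.hK D2020.hI D2020.hC

theorem D2101.good (hL : VSs M schemas) (H : Ctx M DK gen) :
    GoodL M (val M DK gen) D2101.ct :=
  stage_sound H hL (goodT3 hL H) D2101.hK D2101.hI D2101.hC

theorem D2110.good (hL : VSs M schemas) (H : Ctx M DK gen) :
    GoodL M (val M DK gen) D2110.ct :=
  stage_sound H hL (goodT3 hL H) D2110.hK D2110.hI D2110.hC

theorem D2200.good (hL : VSs M schemas) (H : Ctx M DK gen) :
    GoodL M (val M DK gen) D2200.ct :=
  stage_sound H hL (goodT3 hL H) D2200.hK D2200.hI D2200.hC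

theorem D3001.good (hL : VSs M schemas) (H : Ctx M DK gen) :
    GoodL M (val M DK gen) D3001.ct :=
  stage_sound H hL (goodT3 hL H) D3001.hK D3001.hI D3001.hC

theorem D3010.good (hL : VSs M schemas) (H : Ctx M DK gen) :
    GoodL M (val M DK gen) D3010.ct :=
  stage_sound H hL (goodT3 hL H) D3010.hK D3010.hI D3010.hC

theorem D3100.good (hL : VSs M schemas) (H : Ctx M DK gen) :
    GoodL M (val M DK gen) D3100.ct :=
  stage_sound H hL (goodT3 hL H) D3100.hK D3100.hI D3100.hC

theorem goodT4 (hL : VSs M schemas) (H : Ctx M DK gen) :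
    GoodL M (val M DK gen) T4 := by
  refine checkU_sound ?_ hU4
  intro t ht
  simp only [List.mem_cons, List.not_mem_nil, or_false] at ht
  rcases ht with rfl | rfl | rfl | rfl | rfl | rfl | rfl | rfl | rfl | rfl | rfl | rfl | rfl | rfl | rfl | rfl | rfl | rfl | rfl | rfl | rfl | rfl | rfl
  · exact goodT3 hL H
  · exact D0022.good hL H
  · exact D0112.good hL H
  · exact D0121.good hL H
  · exact D0202.good hL H
  · exact D0211.good hL H
  · exact D0220.good hL H
  · exact D1012.good hL H
  · exact D1021.good hL H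
  · exact D1102.good hL H
  · exact D1111.good hL H
  · exact D1120.good hL H
  · exact D1201.good hL H
  · exact D1210.good hL H
  · exact D2002.good hL H
  · exact D2011.good hL H
  · exact D2020.good hL H
  · exact D2101.good hL H
  · exact D2110.good hL H
  · exact D2200.good hL H
  · exact D3001.good hL H
  · exact D3010.good hL H
  · exact D3100.good hL H

theorem D0122.good (hL : VSs M schemas) (H : Ctx M DK gen) :
    GoodL M (val M DK gen) D0122.ct :=
  stage_sound H hL (goodT4 hL H) D0122.hK D0122.hI D0122.hC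

theorem D0212.good (hL : VSs M schemas) (H : Ctx M DK gen) :
    GoodL M (val M DK gen) D0212.ct :=
  stage_sound H hL (goodT4 hL H) D0212.hK D0212.hI D0212.hC

theorem D0221.good (hL : VSs M schemas) (H : Ctx M DK gen) :
    GoodL M (val M DK gen) D0221.ct :=
  stage_sound H hL (goodT4 hL H) D0221.hK D0221.hI D0221.hC

theorem D1022.good (hL : VSs M schemas) (H : Ctx M DK gen) :
    GoodL M (val M DK gen) D1022.ct :=
  stage_sound H hL (goodT4 hL H) D1022.hK D1022.hI D1022.hC

theorem D1112.good (hL : VSs M schemas) (H : Ctx M DK gen) :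
    GoodL M (val M DK gen) D1112.ct :=
  stage_sound H hL (goodT4 hL H) D1112.hK D1112.hI D1112.hC

theorem D1121.good (hL : VSs M schemas) (H : Ctx M DK gen) :
    GoodL M (val M DK gen) D1121.ct :=
  stage_sound H hL (goodT4 hL H) D1121.hK D1121.hI D1121.hC

theorem D1202.good (hL : VSs M schemas) (H : Ctx M DK gen) :
    GoodL M (val M DK gen) D1202.ct :=
  stage_sound H hL (goodT4 hL H) D1202.hK D1202.hI D1202.hC

theorem D1211.good (hL : VSs M schemas) (H : Ctx M DK gen) :
    GoodL M (val M DK gen) D1211.ct :=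
  stage_sound H hL (goodT4 hL H) D1211.hK D1211.hI D1211.hC

theorem D1220.good (hL : VSs M schemas) (H : Ctx M DK gen) :
    GoodL M (val M DK gen) D1220.ct :=
  stage_sound H hL (goodT4 hL H) D1220.hK D1220.hI D1220.hC

theorem D2012.good (hL : VSs M schemas) (H : Ctx M DK gen) :
    GoodL M (val M DK gen) D2012.ct :=
  stage_sound H hL (goodT4 hL H) D2012.hK D2012.hI D2012.hC

theorem D2021.good (hL : VSs M schemas) (H : Ctx M DK gen) :
    GoodL M (val M DK gen) D2021.ct :=
  stage_sound H hL (goodT4 hL H) D2021.hK D2021.hI D2021.hC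

theorem D2102.good (hL : VSs M schemas) (H : Ctx M DK gen) :
    GoodL M (val M DK gen) D2102.ct :=
  stage_sound H hL (goodT4 hL H) D2102.hK D2102.hI D2102.hC

theorem D2111.good (hL : VSs M schemas) (H : Ctx M DK gen) :
    GoodL M (val M DK gen) D2111.ct :=
  stage_sound H hL (goodT4 hL H) D2111.hK D2111.hI D2111.hC

theorem D2120.good (hL : VSs M schemas) (H : Ctx M DK gen) :
    GoodL M (val M DK gen) D2120.ct :=
  stage_sound H hL (goodT4 hL H) D2120.hK D2120.hI D2120.hC

theorem D2201.good (hL : VSs M schemas) (H : Ctx M DK gen) :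
    GoodL M (val M DK gen) D2201.ct :=
  stage_sound H hL (goodT4 hL H) D2201.hK D2201.hI D2201.hC

theorem D2210.good (hL : VSs M schemas) (H : Ctx M DK gen) :
    GoodL M (val M DK gen) D2210.ct :=
  stage_sound H hL (goodT4 hL H) D2210.hK D2210.hI D2210.hC

theorem D3002.good (hL : VSs M schemas) (H : Ctx M DK gen) :
    GoodL M (val M DK gen) D3002.ct :=
  stage_sound H hL (goodT4 hL H) D3002.hK D3002.hI D3002.hC

theorem D3011.good (hL : VSs M schemas) (H : Ctx M DK gen) :
    GoodL M (val M DK gen) D3011.ct :=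
  stage_sound H hL (goodT4 hL H) D3011.hK D3011.hI D3011.hC

theorem D3020.good (hL : VSs M schemas) (H : Ctx M DK gen) :
    GoodL M (val M DK gen) D3020.ct :=
  stage_sound H hL (goodT4 hL H) D3020.hK D3020.hI D3020.hC

theorem D3101.good (hL : VSs M schemas) (H : Ctx M DK gen) :
    GoodL M (val M DK gen) D3101.ct :=
  stage_sound H hL (goodT4 hL H) D3101.hK D3101.hI D3101.hC

theorem D3110.good (hL : VSs M schemas) (H : Ctx M DK gen) :
    GoodL M (val M DK gen) D3110.ct :=
  stage_sound H hL (goodT4 hL H) D3110.hK D3110.hI D3110.hC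

theorem D3200.good (hL : VSs M schemas) (H : Ctx M DK gen) :
    GoodL M (val M DK gen) D3200.ct :=
  stage_sound H hL (goodT4 hL H) D3200.hK D3200.hI D3200.hC

theorem goodT5 (hL : VSs M schemas) (H : Ctx M DK gen) :
    GoodL M (val M DK gen) T5 := by
  refine checkU_sound ?_ hU5
  intro t ht
  simp only [List.mem_cons, List.not_mem_nil, or_false] at ht
  rcases ht with rfl | rfl | rfl | rfl | rfl | rfl | rfl | rfl | rfl | rfl | rfl | rfl | rfl | rfl | rfl | rfl | rfl | rfl | rfl | rfl | rfl | rfl | rfl
  · exact goodT4 hL H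
  · exact D0122.good hL H
  · exact D0212.good hL H
  · exact D0221.good hL H
  · exact D1022.good hL H
  · exact D1112.good hL H
  · exact D1121.good hL H
  · exact D1202.good hL H
  · exact D1211.good hL H
  · exact D1220.good hL H
  · exact D2012.good hL H
  · exact D2021.good hL H
  · exact D2102.good hL H
  · exact D2111.good hL H
  · exact D2120.good hL H
  · exact D2201.good hL H
  · exact D2210.good hL H
  · exact D3002.good hL H
  · exact D3011.good hL H
  · exact D3020.good hL H
  · exact D3101.good hL H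
  · exact D3110.good hL H
  · exact D3200.good hL H

theorem D0222.good (hL : VSs M schemas) (H : Ctx M DK gen) :
    GoodL M (val M DK gen) D0222.ct :=
  stage_sound H hL (goodT5 hL H) D0222.hK D0222.hI D0222.hC

theorem D1122.good (hL : VSs M schemas) (H : Ctx M DK gen) :
    GoodL M (val M DK gen) D1122.ct :=
  stage_sound H hL (goodT5 hL H) D1122.hK D1122.hI D1122.hC

theorem D1212.good (hL : VSs M schemas) (H : Ctx M DK gen) :
    GoodL M (val M DK gen) D1212.ct :=
  stage_sound H hL (goodT5 hL H) D1212.hK D1212.hI D1212.hC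

theorem D1221.good (hL : VSs M schemas) (H : Ctx M DK gen) :
    GoodL M (val M DK gen) D1221.ct :=
  stage_sound H hL (goodT5 hL H) D1221.hK D1221.hI D1221.hC

theorem D2022.good (hL : VSs M schemas) (H : Ctx M DK gen) :
    GoodL M (val M DK gen) D2022.ct :=
  stage_sound H hL (goodT5 hL H) D2022.hK D2022.hI D2022.hC

theorem D2112.good (hL : VSs M schemas) (H : Ctx M DK gen) :
    GoodL M (val M DK gen) D2112.ct :=
  stage_sound H hL (goodT5 hL H) D2112.hK D2112.hI D2112.hC

theorem D2121.good (hL : VSs M schemas) (H : Ctx M DK gen) :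
    GoodL M (val M DK gen) D2121.ct :=
  stage_sound H hL (goodT5 hL H) D2121.hK D2121.hI D2121.hC

theorem D2202.good (hL : VSs M schemas) (H : Ctx M DK gen) :
    GoodL M (val M DK gen) D2202.ct :=
  stage_sound H hL (goodT5 hL H) D2202.hK D2202.hI D2202.hC

theorem D2211.good (hL : VSs M schemas) (H : Ctx M DK gen) :
    GoodL M (val M DK gen) D2211.ct :=
  stage_sound H hL (goodT5 hL H) D2211.hK D2211.hI D2211.hC

theorem D2220.good (hL : VSs M schemas) (H : Ctx M DK gen) :
    GoodL M (val M DK gen) D2220.ct :=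
  stage_sound H hL (goodT5 hL H) D2220.hK D2220.hI D2220.hC

theorem D3012.good (hL : VSs M schemas) (H : Ctx M DK gen) :
    GoodL M (val M DK gen) D3012.ct :=
  stage_sound H hL (goodT5 hL H) D3012.hK D3012.hI D3012.hC

theorem D3021.good (hL : VSs M schemas) (H : Ctx M DK gen) :
    GoodL M (val M DK gen) D3021.ct :=
  stage_sound H hL (goodT5 hL H) D3021.hK D3021.hI D3021.hC

theorem D3102.good (hL : VSs M schemas) (H : Ctx M DK gen) :
    GoodL M (val M DK gen) D3102.ct :=
  stage_sound H hL (goodT5 hL H) D3102.hK D3102.hI D3102.hC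

theorem D3111.good (hL : VSs M schemas) (H : Ctx M DK gen) :
    GoodL M (val M DK gen) D3111.ct :=
  stage_sound H hL (goodT5 hL H) D3111.hK D3111.hI D3111.hC

theorem D3120.good (hL : VSs M schemas) (H : Ctx M DK gen) :
    GoodL M (val M DK gen) D3120.ct :=
  stage_sound H hL (goodT5 hL H) D3120.hK D3120.hI D3120.hC

theorem D3201.good (hL : VSs M schemas) (H : Ctx M DK gen) :
    GoodL M (val M DK gen) D3201.ct :=
  stage_sound H hL (goodT5 hL H) D3201.hK D3201.hI D3201.hC

theorem D3210.good (hL : VSs M schemas) (H : Ctx M DK gen) :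
    GoodL M (val M DK gen) D3210.ct :=
  stage_sound H hL (goodT5 hL H) D3210.hK D3210.hI D3210.hC

theorem goodT6 (hL : VSs M schemas) (H : Ctx M DK gen) :
    GoodL M (val M DK gen) T6 := by
  refine checkU_sound ?_ hU6
  intro t ht
  simp only [List.mem_cons, List.not_mem_nil, or_false] at ht
  rcases ht with rfl | rfl | rfl | rfl | rfl | rfl | rfl | rfl | rfl | rfl | rfl | rfl | rfl | rfl | rfl | rfl | rfl | rfl
  · exact goodT5 hL H
  · exact D0222.good hL H
  · exact D1122.good hL H
  · exact D1212.good hL H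
  · exact D1221.good hL H
  · exact D2022.good hL H
  · exact D2112.good hL H
  · exact D2121.good hL H
  · exact D2202.good hL H
  · exact D2211.good hL H
  · exact D2220.good hL H
  · exact D3012.good hL H
  · exact D3021.good hL H
  · exact D3102.good hL H
  · exact D3111.good hL H
  · exact D3120.good hL H
  · exact D3201.good hL H
  · exact D3210.good hL H

theorem D1222.good (hL : VSs M schemas) (H : Ctx M DK gen) :
    GoodL M (val M DK gen) D1222.ct :=
  stage_sound H hL (goodT6 hL H) D1222.hK D1222.hI D1222.hC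

theorem D2122.good (hL : VSs M schemas) (H : Ctx M DK gen) :
    GoodL M (val M DK gen) D2122.ct :=
  stage_sound H hL (goodT6 hL H) D2122.hK D2122.hI D2122.hC

theorem D2212.good (hL : VSs M schemas) (H : Ctx M DK gen) :
    GoodL M (val M DK gen) D2212.ct :=
  stage_sound H hL (goodT6 hL H) D2212.hK D2212.hI D2212.hC

theorem D2221.good (hL : VSs M schemas) (H : Ctx M DK gen) :
    GoodL M (val M DK gen) D2221.ct :=
  stage_sound H hL (goodT6 hL H) D2221.hK D2221.hI D2221.hC

theorem D3022.good (hL : VSs M schemas) (H : Ctx M DK gen) :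
    GoodL M (val M DK gen) D3022.ct :=
  stage_sound H hL (goodT6 hL H) D3022.hK D3022.hI D3022.hC

theorem D3112.good (hL : VSs M schemas) (H : Ctx M DK gen) :
    GoodL M (val M DK gen) D3112.ct :=
  stage_sound H hL (goodT6 hL H) D3112.hK D3112.hI D3112.hC

theorem D3121.good (hL : VSs M schemas) (H : Ctx M DK gen) :
    GoodL M (val M DK gen) D3121.ct :=
  stage_sound H hL (goodT6 hL H) D3121.hK D3121.hI D3121.hC

theorem D3202.good (hL : VSs M schemas) (H : Ctx M DK gen) :
    GoodL M (val M DK gen) D3202.ct :=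
  stage_sound H hL (goodT6 hL H) D3202.hK D3202.hI D3202.hC

theorem D3211.good (hL : VSs M schemas) (H : Ctx M DK gen) :
    GoodL M (val M DK gen) D3211.ct :=
  stage_sound H hL (goodT6 hL H) D3211.hK D3211.hI D3211.hC

theorem D3220.good (hL : VSs M schemas) (H : Ctx M DK gen) :
    GoodL M (val M DK gen) D3220.ct :=
  stage_sound H hL (goodT6 hL H) D3220.hK D3220.hI D3220.hC

theorem goodT7 (hL : VSs M schemas) (H : Ctx M DK gen) :
    GoodL M (val M DK gen) T7 := by
  refine checkU_sound ?_ hU7
  intro t ht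
  simp only [List.mem_cons, List.not_mem_nil, or_false] at ht
  rcases ht with rfl | rfl | rfl | rfl | rfl | rfl | rfl | rfl | rfl | rfl | rfl
  · exact goodT6 hL H
  · exact D1222.good hL H
  · exact D2122.good hL H
  · exact D2212.good hL H
  · exact D2221.good hL H
  · exact D3022.good hL H
  · exact D3112.good hL H
  · exact D3121.good hL H
  · exact D3202.good hL H
  · exact D3211.good hL H
  · exact D3220.good hL H

theorem fin_good (hL : VSs M schemas) (H : Ctx M DK gen) :
    evE M (xA (val M DK gen) [2, 2, 2, 1, 1, 3, 3, 5, 5])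
      (parA [2, 2, 2, 1, 1, 3, 3, 5, 5]) sTgt.2 = 0 :=
  final_sound H hL (goodT7 hL H) D9.hK D9.hI (c := D9.c) D9.hX

end

end H8Alt.C3.N
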