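import Pool.Agent.H3.Alt.C3.T1

namespace H8Alt.C3.N

open H8Alt.Super (Tr RT)

namespace D0002

def K : ℕ :=
  0

set_option maxRecDepth 100000 in
def top : TT :=
  .lf

set_option maxRecDepth 100000 in
def it : IT :=
  .lf

set_option maxRecDepth 100000 in
def ct : TT :=
  .nd .lf 0x1005005000 13 0 .lf

theorem hK : checkK K top = true := by decide +kernel

theorem hI : checkI schemas T1 top it = true := by decide +kernel

theorem hC : checkC DK top it ct = true := by decide +kernel

end D0002

namespace D0011

def K : ℕ :=
  0

set_option maxRecDepth 100000 in
def top : TT :=
  .lf

set_option maxRecDepth 100000 in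
def it : IT :=
  .lf

set_option maxRecDepth 100000 in
def ct : TT :=
  .nd .lf 0x1003005000 17 0 .lf

theorem hK : checkK K top = true := by decide +kernel

theorem hI : checkI schemas T1 top it = true := by decide +kernel

theorem hC : checkC DK top it ct = true := by decide +kernel

end D0011

namespace D0020

def K : ℕ :=
  0

set_option maxRecDepth 100000 in
def top : TT :=
  .lf

set_option maxRecDepth 100000 in
def it : IT :=
  .lf

set_option maxRecDepth 100000 in
def ct : TT :=
  .nd .lf 0x1003003000 21 0 .lf

theorem hK : checkK K top = true := by decide +kernel

theorem hI : checkI schemas T1 top it = true := by decide +kernel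

theorem hC : checkC DK top it ct = true := by decide +kernel

end D0020

namespace D0101

def K : ℕ :=
  0

set_option maxRecDepth 100000 in
def top : TT :=
  .lf

set_option maxRecDepth 100000 in
def it : IT :=
  .lf

set_option maxRecDepth 100000 in
def ct : TT :=
  .nd .lf 0x1001005000 25 0 .lf

theorem hK : checkK K top = true := by decide +kernel

theorem hI : checkI schemas T1 top it = true := by decide +kernel

theorem hC : checkC DK top it ct = true := by decide +kernel

end D0101

namespace D0110

def K : ℕ :=
  0

set_option maxRecDepth 100000 in
def top : TT :=
  .lf

set_option maxRecDepth 100000 in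
def it : IT :=
  .lf

set_option maxRecDepth 100000 in
def ct : TT :=
  .nd .lf 0x1001003000 29 0 .lf

theorem hK : checkK K top = true := by decide +kernel

theorem hI : checkI schemas T1 top it = true := by decide +kernel

theorem hC : checkC DK top it ct = true := by decide +kernel

end D0110

namespace D0200

def K : ℕ :=
  0

set_option maxRecDepth 100000 in
def top : TT :=
  .lf

set_option maxRecDepth 100000 in
def it : IT :=
  .lf

set_option maxRecDepth 100000 in
def ct : TT :=
  .nd .lf 0x1001001000 33 0 .lf

theorem hK : checkK K top = true := by decide +kernel

theorem hI : checkI schemas T1 top it = true := by decide +kernel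

theorem hC : checkC DK top it ct = true := by decide +kernel

end D0200

namespace D1001

def K : ℕ :=
  0

set_option maxRecDepth 100000 in
def top : TT :=
  .lf

set_option maxRecDepth 100000 in
def it : IT :=
  .lf

set_option maxRecDepth 100000 in
def ct : TT :=
  .nd .lf 0x1002005000 15 0 .lf

theorem hK : checkK K top = true := by decide +kernel

theorem hI : checkI schemas T1 top it = true := by decide +kernel

theorem hC : checkC DK top it ct = true := by decide +kernel

end D1001

namespace D1010

def K : ℕ :=
  0

set_option maxRecDepth 100000 in
def top : TT :=
  .lf

set_option maxRecDepth 100000 in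
def it : IT :=
  .lf

set_option maxRecDepth 100000 in
def ct : TT :=
  .nd .lf 0x1002003000 19 0 .lf

theorem hK : checkK K top = true := by decide +kernel

theorem hI : checkI schemas T1 top it = true := by decide +kernel

theorem hC : checkC DK top it ct = true := by decide +kernel

end D1010

namespace D1100

def K : ℕ :=
  0

set_option maxRecDepth 100000 in
def top : TT :=
  .lf

set_option maxRecDepth 100000 in
def it : IT :=
  .lf

set_option maxRecDepth 100000 in
def ct : TT :=
  .nd .lf 0x1001002000 23 0 .lf

theorem hK : checkK K top = true := by decide +kernel

theorem hI : checkI schemas T1 top it = true := by decide +kernel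

theorem hC : checkC DK top it ct = true := by decide +kernel

end D1100

end H8Alt.C3.N
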