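import Pool.Agent.H3.Alt.C3.T2

namespace H8Alt.C3.N

open H8Alt.Super (Tr RT)

namespace D0012

def K : ℕ :=
  0x10050080001003006000

set_option maxRecDepth 100000 in
def top : TT :=
  .nd (.nd .lf 0x1003006000 1 0 .lf) 0x1005008000 2 0 .lf

set_option maxRecDepth 100000 in
def it : IT :=
  .nd .lf 1 0 [5,5,3] 0x2204882428094802a 0x182110889014a0415 .lf

set_option maxRecDepth 100000 in
def ct : TT :=
  .nd (.nd .lf 0x1003006000 39 0 .lf) 0x1005008000 39 2 (.nd .lf 0x2003005005 43 0 .lf)

theorem hK : checkK K top = true := by decide +kernel

theorem hI : checkI schemas T2 top it = true := by decide +kernel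

theorem hC : checkC DK top it ct = true := by decide +kernel

end D0012

namespace D0021

def K : ℕ :=
  0x100500a0001003008000

set_option maxRecDepth 100000 in
def top : TT :=
  .nd (.nd .lf 0x1003008000 1 0 .lf) 0x100500a000 2 0 .lf

set_option maxRecDepth 100000 in
def it : IT :=
  .nd .lf 1 0 [5,3,3] 0x182110889014a0415 0x2204882428094802a .lf

set_option maxRecDepth 100000 in
def ct : TT :=
  .nd (.nd .lf 0x1003008000 47 0 .lf) 0x100500a000 47 3 (.nd .lf 0x2003003005 51 0 .lf)

theorem hK : checkK K top = true := by decide +kernel

theorem hI : checkI schemas T2 top it = true := by decide +kernel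

theorem hC : checkC DK top it ct = true := by decide +kernel

end D0021

namespace D0102

def K : ℕ :=
  0x100500c0001001006000

set_option maxRecDepth 100000 in
def top : TT :=
  .nd (.nd .lf 0x1001006000 1 0 .lf) 0x100500c000 2 0 .lf

set_option maxRecDepth 100000 in
def it : IT :=
  .nd .lf 1 0 [5,5,1] 0x2204882428094802a 0x182110889014a0415 .lf

set_option maxRecDepth 100000 in
def ct : TT :=
  .nd (.nd .lf 0x1001006000 55 0 .lf) 0x100500c000 55 2 (.nd .lf 0x2001005005 59 0 .lf)

theorem hK : checkK K top = true := by decide +kernel

theorem hI : checkI schemas T2 top it = true := by decide +kernel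

theorem hC : checkC DK top it ct = true := by decide +kernel

end D0102

namespace D0111

def K : ℕ :=
  0x100500e000100300c0001001008000

set_option maxRecDepth 100000 in
def top : TT :=
  .nd (.nd .lf 0x1001008000 1 0 .lf) 0x100300c000 2 0 (.nd .lf 0x100500e000 3 0 .lf)

set_option maxRecDepth 100000 in
def it : IT :=
  .nd .lf 1 0 [5,3,1] 0x8600181803de0c3f 0x760d986c780018000 .lf

set_option maxRecDepth 100000 in
def ct : TT :=
  .nd (.nd (.nd .lf 0x1001008000 63 0 .lf) 0x100300c000 67 0 .lf) 0x100500e000 548928 3 (.nd .lf
  0x2001003005 71 0 .lf)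

theorem hK : checkK K top = true := by decide +kernel

theorem hI : checkI schemas T2 top it = true := by decide +kernel

theorem hC : checkC DK top it ct = true := by decide +kernel

end D0111

namespace D0120

def K : ℕ :=
  0x100300e000100100a000

set_option maxRecDepth 100000 in
def top : TT :=
  .nd (.nd .lf 0x100100a000 1 0 .lf) 0x100300e000 2 0 .lf

set_option maxRecDepth 100000 in
def it : IT :=
  .nd .lf 1 0 [3,3,1] 0x2204882428094802a 0x182110889014a0415 .lf

set_option maxRecDepth 100000 in
def ct : TT :=
  .nd (.nd .lf 0x100100a000 75 0 .lf) 0x100300e000 75 2 (.nd .lf 0x2001003003 79 0 .lf)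

theorem hK : checkK K top = true := by decide +kernel

theorem hI : checkI schemas T2 top it = true := by decide +kernel

theorem hC : checkC DK top it ct = true := by decide +kernel

end D0120

namespace D0201

def K : ℕ :=
  0x1005010000100100c000

set_option maxRecDepth 100000 in
def top : TT :=
  .nd (.nd .lf 0x100100c000 1 0 .lf) 0x1005010000 2 0 .lf

set_option maxRecDepth 100000 in
def it : IT :=
  .nd .lf 1 0 [5,1,1] 0x182110889014a0415 0x2204882428094802a .lf

set_option maxRecDepth 100000 in
def ct : TT :=
  .nd (.nd .lf 0x100100c000 83 0 .lf) 0x1005010000 83 3 (.nd .lf 0x2001001005 87 0 .lf)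

theorem hK : checkK K top = true := by decide +kernel

theorem hI : checkI schemas T2 top it = true := by decide +kernel

theorem hC : checkC DK top it ct = true := by decide +kernel

end D0201

namespace D0210

def K : ℕ :=
  0x1003010000100100e000

set_option maxRecDepth 100000 in
def top : TT :=
  .nd (.nd .lf 0x100100e000 1 0 .lf) 0x1003010000 2 0 .lf

set_option maxRecDepth 100000 in
def it : IT :=
  .nd .lf 1 0 [3,1,1] 0x182110889014a0415 0x2204882428094802a .lf

set_option maxRecDepth 100000 in
def ct : TT :=
  .nd (.nd .lf 0x100100e000 91 2 .lf) 0x1003010000 91 0 (.nd .lf 0x2001001003 95 0 .lf)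

theorem hK : checkK K top = true := by decide +kernel

theorem hI : checkI schemas T2 top it = true := by decide +kernel

theorem hC : checkC DK top it ct = true := by decide +kernel

end D0210

namespace D1002

def K : ℕ :=
  0x10050070001002006000

set_option maxRecDepth 100000 in
def top : TT :=
  .nd (.nd .lf 0x1002006000 1 0 .lf) 0x1005007000 2 0 .lf

set_option maxRecDepth 100000 in
def it : IT :=
  .nd .lf 1 0 [5,5,2] 0x1c2671307e007800 0x3a2598acb81de843f .lf

set_option maxRecDepth 100000 in
def ct : TT :=
  .nd (.nd .lf 0x1002006000 37 0 .lf) 0x1005007000 38 3 (.nd .lf 0x2002005005 41 0 .lf)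

theorem hK : checkK K top = true := by decide +kernel

theorem hI : checkI schemas T2 top it = true := by decide +kernel

theorem hC : checkC DK top it ct = true := by decide +kernel

end D1002

namespace D1011

def K : ℕ :=
  0x100500900010030070001002008000

set_option maxRecDepth 100000 in
def top : TT :=
  .nd (.nd .lf 0x1002008000 1 0 .lf) 0x1003007000 2 0 (.nd .lf 0x1005009000 3 0 .lf)

set_option maxRecDepth 100000 in
def it : IT :=
  .nd .lf 1 0 [5,3,2] 0x678eee766fc01f000 0x1001100810094002a .lf

set_option maxRecDepth 100000 in
def ct : TT :=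
  .nd (.nd (.nd .lf 0x1002008000 45 0 .lf) 0x1003007000 49 0 .lf) 0x1005009000 401453 2 (.nd .lf
  0x2002003005 53 0 .lf)

theorem hK : checkK K top = true := by decide +kernel

theorem hI : checkI schemas T2 top it = true := by decide +kernel

theorem hC : checkC DK top it ct = true := by decide +kernel

end D1011

namespace D1020

def K : ℕ :=
  0x1003009000100200a000

set_option maxRecDepth 100000 in
def top : TT :=
  .nd (.nd .lf 0x100200a000 1 0 .lf) 0x1003009000 2 0 .lf

set_option maxRecDepth 100000 in
def it : IT :=
  .nd .lf 1 0 [3,3,2] 0x1c2671307e007800 0x3a2598acb81de843f .lf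

set_option maxRecDepth 100000 in
def ct : TT :=
  .nd (.nd .lf 0x100200a000 57 0 .lf) 0x1003009000 58 3 (.nd .lf 0x2002003003 61 0 .lf)

theorem hK : checkK K top = true := by decide +kernel

theorem hI : checkI schemas T2 top it = true := by decide +kernel

theorem hC : checkC DK top it ct = true := by decide +kernel

end D1020

namespace D1101

def K : ℕ :=
  0x100500b000100200c0001001007000

set_option maxRecDepth 100000 in
def top : TT :=
  .nd (.nd .lf 0x1001007000 1 0 .lf) 0x100200c000 2 0 (.nd .lf 0x100500b000 3 0 .lf)

set_option maxRecDepth 100000 in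
def it : IT :=
  .nd .lf 1 0 [5,1,2] 0x1001100810094002a 0x678eee766fc01f000 .lf

set_option maxRecDepth 100000 in
def ct : TT :=
  .nd (.nd (.nd .lf 0x1001007000 69 0 .lf) 0x100200c000 65 0 .lf) 0x100500b000 557122 3 (.nd .lf
  0x2001002005 73 0 .lf)

theorem hK : checkK K top = true := by decide +kernel

theorem hI : checkI schemas T2 top it = true := by decide +kernel

theorem hC : checkC DK top it ct = true := by decide +kernel

end D1101

namespace D1110

def K : ℕ :=
  0x100300b000100200e0001001009000

set_option maxRecDepth 100000 in
def top : TT :=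
  .nd (.nd .lf 0x1001009000 1 0 .lf) 0x100200e000 2 0 (.nd .lf 0x100300b000 3 0 .lf)

set_option maxRecDepth 100000 in
def it : IT :=
  .nd .lf 1 0 [3,1,2] 0x1001100810094002a 0x678eee766fc01f000 .lf

set_option maxRecDepth 100000 in
def ct : TT :=
  .nd (.nd (.nd .lf 0x1001009000 655437 2 .lf) 0x100200e000 77 0 .lf) 0x100300b000 81 0 (.nd .lf
  0x2001002003 85 0 .lf)

theorem hK : checkK K top = true := by decide +kernel

theorem hI : checkI schemas T2 top it = true := by decide +kernel

theorem hC : checkC DK top it ct = true := by decide +kernel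

end D1110

namespace D1200

def K : ℕ :=
  0x1002010000100100b000

set_option maxRecDepth 100000 in
def top : TT :=
  .nd (.nd .lf 0x100100b000 1 0 .lf) 0x1002010000 2 0 .lf

set_option maxRecDepth 100000 in
def it : IT :=
  .nd .lf 1 0 [1,1,2] 0x182110889014a0415 0x2204882428094802a .lf

set_option maxRecDepth 100000 in
def ct : TT :=
  .nd (.nd .lf 0x100100b000 89 2 .lf) 0x1002010000 89 0 (.nd .lf 0x2001001002 93 0 .lf)

theorem hK : checkK K top = true := by decide +kernel

theorem hI : checkI schemas T2 top it = true := by decide +kernel

theorem hC : checkC DK top it ct = true := by decide +kernel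

end D1200

namespace D2001

def K : ℕ :=
  0

set_option maxRecDepth 100000 in
def top : TT :=
  .lf

set_option maxRecDepth 100000 in
def it : IT :=
  .lf

set_option maxRecDepth 100000 in
def ct : TT :=
  .nd .lf 0x1002007000 99 0 .lf

theorem hK : checkK K top = true := by decide +kernel

theorem hI : checkI schemas T2 top it = true := by decide +kernel

theorem hC : checkC DK top it ct = true := by decide +kernel

end D2001

namespace D2010

def K : ℕ :=
  0

set_option maxRecDepth 100000 in
def top : TT :=
  .lf

set_option maxRecDepth 100000 in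
def it : IT :=
  .lf

set_option maxRecDepth 100000 in
def ct : TT :=
  .nd .lf 0x1002009000 103 0 .lf

theorem hK : checkK K top = true := by decide +kernel

theorem hI : checkI schemas T2 top it = true := by decide +kernel

theorem hC : checkC DK top it ct = true := by decide +kernel

end D2010

namespace D2100

def K : ℕ :=
  0

set_option maxRecDepth 100000 in
def top : TT :=
  .lf

set_option maxRecDepth 100000 in
def it : IT :=
  .lf

set_option maxRecDepth 100000 in
def ct : TT :=
  .nd .lf 0x100200b000 107 0 .lf

theorem hK : checkK K top = true := by decide +kernel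

theorem hI : checkI schemas T2 top it = true := by decide +kernel

theorem hC : checkC DK top it ct = true := by decide +kernel

end D2100

end H8Alt.C3.N
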