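import Pool.Agent.H3.Alt.C3.DK

namespace H8Alt.C3.N

open H8Alt.Super (Tr RT)

def T1 : TT := .lf

end H8Alt.C3.N
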