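import Pool.Agent.H3.Alt.C3.S2

namespace H8Alt.C3.N

open H8Alt.Super (Tr RT)

set_option maxRecDepth 100000 in
def T2 : TT :=
  .nd (.nd (.nd (.nd .lf 0x1001001000 33 0 .lf) 0x1001002000 23 0 .lf) 0x1001003000 29 0 (.nd .lf
  0x1001005000 25 0 .lf)) 0x1002003000 19 0 (.nd (.nd (.nd .lf 0x1002005000 15 0 .lf) 0x1003003000
  21 0 .lf) 0x1003005000 17 0 (.nd .lf 0x1005005000 13 0 .lf))

theorem hU2 : checkU [T1, D0002.ct, D0011.ct, D0020.ct, D0101.ct, D0110.ct, D0200.ct, D1001.ct, D1010.ct, D1100.ct]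
    T2 = true := by decide +kernel

end H8Alt.C3.N
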