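import Pool.Agent.H3.Alt.C3.S3

namespace H8Alt.C3.N

open H8Alt.Super (Tr RT)

set_option maxRecDepth 100000 in
def T3 : TT :=
  .nd (.nd (.nd (.nd (.nd (.nd .lf 0x1001001000 33 0 .lf) 0x1001002000 23 0 (.nd .lf 0x1001003000 29
  0 .lf)) 0x1001005000 25 0 (.nd (.nd .lf 0x1001006000 55 0 .lf) 0x1001007000 69 0 .lf))
  0x1001008000 63 0 (.nd (.nd (.nd .lf 0x1001009000 655437 0 .lf) 0x100100a000 75 0 (.nd .lf
  0x100100b000 89 0 .lf)) 0x100100c000 83 0 (.nd (.nd .lf 0x100100e000 91 0 .lf) 0x1002003000 19 0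
  .lf))) 0x1002005000 15 0 (.nd (.nd (.nd (.nd .lf 0x1002006000 37 0 .lf) 0x1002007000 99 0 (.nd .lf
  0x1002008000 45 0 .lf)) 0x1002009000 103 0 (.nd (.nd .lf 0x100200a000 57 0 .lf) 0x100200b000 107 0
  .lf)) 0x100200c000 65 0 (.nd (.nd (.nd .lf 0x100200e000 77 0 .lf) 0x1002010000 89 0 (.nd .lf
  0x1003003000 21 0 .lf)) 0x1003005000 17 0 (.nd (.nd .lf 0x1003006000 39 0 .lf) 0x1003007000 49 0
  .lf)))) 0x1003008000 47 0 (.nd (.nd (.nd (.nd (.nd .lf 0x1003009000 58 0 .lf) 0x100300b000 81 0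
  (.nd .lf 0x100300c000 67 0 .lf)) 0x100300e000 75 0 (.nd (.nd .lf 0x1003010000 91 0 .lf)
  0x1005005000 13 0 .lf)) 0x1005007000 38 0 (.nd (.nd (.nd .lf 0x1005008000 39 0 .lf) 0x1005009000
  401453 0 (.nd .lf 0x100500a000 47 0 .lf)) 0x100500b000 557122 0 (.nd (.nd .lf 0x100500c000 55 0
  .lf) 0x100500e000 548928 0 .lf))) 0x1005010000 83 0 (.nd (.nd (.nd (.nd .lf 0x2001001002 93 0 .lf)
  0x2001001003 95 0 (.nd .lf 0x2001001005 87 0 .lf)) 0x2001002003 85 0 (.nd (.nd .lf 0x2001002005 73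
  0 .lf) 0x2001003003 79 0 .lf)) 0x2001003005 71 0 (.nd (.nd (.nd .lf 0x2001005005 59 0 .lf)
  0x2002003003 61 0 (.nd .lf 0x2002003005 53 0 .lf)) 0x2002005005 41 0 (.nd (.nd .lf 0x2003003005 51
  0 .lf) 0x2003005005 43 0 .lf))))

theorem hU3 : checkU [T2, D0012.ct, D0021.ct, D0102.ct, D0111.ct, D0120.ct, D0201.ct, D0210.ct, D1002.ct, D1011.ct,
  D1020.ct, D1101.ct, D1110.ct, D1200.ct, D2001.ct, D2010.ct, D2100.ct]
    T3 = true := by decide +kernel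

end H8Alt.C3.N
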